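import Mathlib
import Pool.Agent.X199.Milman

set_option autoImplicit false
set_option linter.unusedSectionVars false

namespace Pool.Agent.Results.MP_d4114f_an.Composition

open Set Topology Filter Pool.Agent.X199.Milman

/-- The pair `(K, α)` is an affine `G`-flow: `K` is a compact convex subset of the ambient space and
`α` is a continuous action of `G` on `K` by affine maps (hence by affine homeomorphisms). -/
structure IsAffineFlow (G : Type*) [Group G] [TopologicalSpace G] {E : Type*} [AddCommGroup E]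
    [Module ℝ E] [TopologicalSpace E] (K : Set E) (α : G → E → E) : Prop where
  isCompact : IsCompact K
  convex : Convex ℝ K
  maps : ∀ g, ∀ x ∈ K, α g x ∈ K
  one : ∀ x ∈ K, α 1 x = x
  mul : ∀ g h, ∀ x ∈ K, α (g * h) x = α g (α h x)
  affine : ∀ g, ∀ x ∈ K, ∀ y ∈ K, ∀ a b : ℝ, 0 ≤ a → 0 ≤ b → a + b = 1 →
    α g (a • x + b • y) = a • α g x + b • α g y
  continuous : ContinuousOn (fun q : G × E => α q.1 q.2) (univ ×ˢ K)

/-- `C` is an affine subflow of `(K, α)`: a compact convex invariant subset. -/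
structure IsAffineSubflow {G E : Type*} [AddCommGroup E] [Module ℝ E] [TopologicalSpace E]
    (K : Set E) (α : G → E → E) (C : Set E) : Prop where
  subset : C ⊆ K
  isCompact : IsCompact C
  convex : Convex ℝ C
  maps : ∀ g, ∀ x ∈ C, α g x ∈ C

/-- `φ : L → K` is an affine extension of the flow `(K, β)` by the flow `(L, α)`: a continuous
affine equivariant surjection. -/
structure IsAffineExtension {G E F : Type*} [AddCommGroup E] [Module ℝ E] [TopologicalSpace E]
    [AddCommGroup F] [Module ℝ F] [TopologicalSpace F] (L : Set E) (α : G → E → E)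
    (K : Set F) (β : G → F → F) (φ : E → F) : Prop where
  continuousOn : ContinuousOn φ L
  image_eq : φ '' L = K
  affine : ∀ x ∈ L, ∀ y ∈ L, ∀ a b : ℝ, 0 ≤ a → 0 ≤ b → a + b = 1 →
    φ (a • x + b • y) = a • φ x + b • φ y
  equivariant : ∀ g, ∀ x ∈ L, φ (α g x) = β g (φ x)

/-- The closure of the set of extreme points. -/
def extClosure {E : Type*} [AddCommGroup E] [Module ℝ E] [TopologicalSpace E] (K : Set E) : Set E :=
  closure (K.extremePoints ℝ)

/-- Proximal irreducibility of the affine extension `φ : L → K`. -/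
def ProximallyIrreducible {G E F : Type*} [AddCommGroup E] [Module ℝ E] [TopologicalSpace E]
    [AddCommGroup F] [Module ℝ F] [TopologicalSpace F] (L : Set E) (α : G → E → E)
    (K : Set F) (φ : E → F) : Prop :=
  ∀ C : Set E, IsAffineSubflow L α C →
    (∀ y ∈ extClosure K, (C ∩ convexHull ℝ (extClosure L ∩ φ ⁻¹' {y})).Nonempty) → C = L

variable {G : Type*} [Group G] [TopologicalSpace G]
variable {E : Type*} [AddCommGroup E] [Module ℝ E] [TopologicalSpace E]
  [IsTopologicalAddGroup E] [ContinuousSMul ℝ E] [LocallyConvexSpace ℝ E] [T2Space E]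
variable {F : Type*} [AddCommGroup F] [Module ℝ F] [TopologicalSpace F]
  [IsTopologicalAddGroup F] [ContinuousSMul ℝ F] [LocallyConvexSpace ℝ F] [T2Space F]

section flow

variable {K : Set E} {α : G → E → E} (hK : IsAffineFlow G K α)

omit [IsTopologicalAddGroup E] [ContinuousSMul ℝ E] [LocallyConvexSpace ℝ E]
include hK

theorem ext_subset : extClosure K ⊆ K :=
  closure_minimal extremePoints_subset hK.isCompact.isClosed

theorem isCompact_ext : IsCompact (extClosure K) :=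
  hK.isCompact.of_isClosed_subset isClosed_closure (ext_subset hK)

omit [T2Space E] in
theorem cont (g : G) : ContinuousOn (α g) K := by
  have h : ContinuousOn (fun x : E => (g, x)) K := by fun_prop
  exact hK.continuous.comp h (fun x hx => ⟨mem_univ _, hx⟩)

omit [T2Space E] in
theorem inv_act (g : G) {x : E} (hx : x ∈ K) : α g⁻¹ (α g x) = x := by
  rw [← hK.mul _ _ x hx, inv_mul_cancel, hK.one x hx]

omit [T2Space E] in
theorem act_inv (g : G) {x : E} (hx : x ∈ K) : α g (α g⁻¹ x) = x := by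
  rw [← hK.mul _ _ x hx, mul_inv_cancel, hK.one x hx]

omit [T2Space E] in
theorem ext_inv (g : G) {x : E} (hx : x ∈ K.extremePoints ℝ) : α g x ∈ K.extremePoints ℝ := by
  rw [mem_extremePoints] at hx ⊢
  refine ⟨hK.maps g x hx.1, ?_⟩
  rintro y hy z hz ⟨a, b, ha, hb, hab, hxyz⟩
  have h1 : α g⁻¹ (α g x) = a • α g⁻¹ y + b • α g⁻¹ z := by
    rw [← hxyz, hK.affine _ y hy z hz a b ha.le hb.le hab]
  rw [inv_act hK g hx.1] at h1
  obtain ⟨h2, h3⟩ := hx.2 _ (hK.maps g⁻¹ y hy) _ (hK.maps g⁻¹ z hz) ⟨a, b, ha, hb, hab, h1.symm⟩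
  constructor
  · rw [← h2, act_inv hK g hy]
  · rw [← h3, act_inv hK g hz]

theorem closure_inv {S : Set E} (hS : S ⊆ K) (h : ∀ g, ∀ x ∈ S, α g x ∈ S) (g : G) {x : E}
    (hx : x ∈ closure S) : α g x ∈ closure S := by
  have h1 : closure S ⊆ K := closure_minimal hS hK.isCompact.isClosed
  have h2 : MapsTo (α g) S S := fun y hy => h g y hy
  exact h2.closure_of_continuousOn ((cont hK g).mono h1) hx

theorem extc_inv (g : G) {x : E} (hx : x ∈ extClosure K) : α g x ∈ extClosure K :=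
  closure_inv hK extremePoints_subset (fun g _ hx => ext_inv hK g hx) g hx

end flow

/-- closed convex hull of a closed invariant set is a subflow -/
theorem hull_subflow {K : Set E} {α : G → E → E} (hK : IsAffineFlow G K α) {S : Set E}
    (hS : S ⊆ K) (h : ∀ g, ∀ x ∈ S, α g x ∈ S) :
    IsAffineSubflow K α (closure (convexHull ℝ S)) := by
  have h1 : closure (convexHull ℝ S) ⊆ K :=
    closure_minimal (convexHull_min hS hK.convex) hK.isCompact.isClosed
  refine ⟨h1, hK.isCompact.of_isClosed_subset isClosed_closure h1,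
    (convex_convexHull ℝ S).closure, ?_⟩
  intro g
  have h2 : Convex ℝ (K ∩ α g ⁻¹' (closure (convexHull ℝ S))) := by
    rintro x ⟨hx1, hx2⟩ y ⟨hy1, hy2⟩ a b ha hb hab
    refine ⟨hK.convex hx1 hy1 ha hb hab, ?_⟩
    show α g (a • x + b • y) ∈ closure (convexHull ℝ S)
    rw [hK.affine g x hx1 y hy1 a b ha hb hab]
    exact (convex_convexHull ℝ S).closure hx2 hy2 ha hb hab
  have h3 : IsClosed (K ∩ α g ⁻¹' (closure (convexHull ℝ S))) :=
    (cont hK g).preimage_isClosed_of_isClosed hK.isCompact.isClosed isClosed_closure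
  have h4 : S ⊆ K ∩ α g ⁻¹' (closure (convexHull ℝ S)) :=
    fun x hx => ⟨hS hx, subset_closure (subset_convexHull ℝ S (h g x hx))⟩
  have h5 := closure_minimal (convexHull_min h4 h2) h3
  exact fun x hx => (h5 hx).2

/-- the main tool: a closed invariant set whose closed convex hull meets the required hulls contains
the extreme points -/
theorem irr_ext {L : Set E} {α : G → E → E} {K : Set F} {φ : E → F} (hL : IsAffineFlow G L α)
    (hirr : ProximallyIrreducible L α K φ) {S : Set E} (hS : S ⊆ L) (hSc : IsClosed S)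
    (h : ∀ g, ∀ x ∈ S, α g x ∈ S)
    (hmeet : ∀ y ∈ extClosure K,
      (closure (convexHull ℝ S) ∩ convexHull ℝ (extClosure L ∩ φ ⁻¹' {y})).Nonempty) :
    L.extremePoints ℝ ⊆ S := by
  have h1 := hirr _ (hull_subflow hL hS h) hmeet
  exact milman hL.isCompact hL.convex hSc hS (by rw [h1])

section extension

variable {L : Set E} {α : G → E → E} {K : Set F} {β : G → F → F} {φ : E → F}

omit [IsTopologicalAddGroup F] [ContinuousSMul ℝ F] [LocallyConvexSpace ℝ F] in
theorem ext_lift (hL : IsAffineFlow G L α) (hφ : IsAffineExtension L α K β φ) {z : F}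
    (hz : z ∈ K.extremePoints ℝ) : ∃ p ∈ L.extremePoints ℝ, φ p = z := by
  have hzK : z ∈ K := extremePoints_subset hz
  have hc : IsCompact (L ∩ φ ⁻¹' {z}) :=
    hL.isCompact.of_isClosed_subset
      (hφ.continuousOn.preimage_isClosed_of_isClosed hL.isCompact.isClosed isClosed_singleton)
      inter_subset_left
  have hne : (L ∩ φ ⁻¹' {z}).Nonempty := by
    rw [← hφ.image_eq] at hzK
    obtain ⟨p, hp, hpz⟩ := hzK
    exact ⟨p, hp, hpz⟩
  obtain ⟨p, hp⟩ := hc.extremePoints_nonempty hne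
  refine ⟨p, ?_, (extremePoints_subset hp).2⟩
  have hpL := (extremePoints_subset hp).1
  have hpz : φ p = z := (extremePoints_subset hp).2
  rw [mem_extremePoints] at hp hz ⊢
  refine ⟨hpL, ?_⟩
  rintro x hx y hy ⟨a, b, ha, hb, hab, hxyz⟩
  have h1 : a • φ x + b • φ y = z := by
    rw [← hφ.affine x hx y hy a b ha.le hb.le hab, hxyz, hpz]
  have hxK : φ x ∈ K := by rw [← hφ.image_eq]; exact mem_image_of_mem _ hx
  have hyK : φ y ∈ K := by rw [← hφ.image_eq]; exact mem_image_of_mem _ hy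
  obtain ⟨h2, h3⟩ := hz.2 _ hxK _ hyK ⟨a, b, ha, hb, hab, h1⟩
  exact hp.2 _ ⟨hx, h2⟩ _ ⟨hy, h3⟩ ⟨a, b, ha, hb, hab, hxyz⟩

omit [IsTopologicalAddGroup F] [ContinuousSMul ℝ F] [LocallyConvexSpace ℝ F] in
theorem closed_image_ext (hL : IsAffineFlow G L α) (hφ : IsAffineExtension L α K β φ) {S : Set E}
    (hS : S ⊆ L) (hSc : IsClosed S) {T : Set F} (hT : ∀ z ∈ T, ∃ p ∈ S, φ p = z) :
    ∀ z ∈ closure T, ∃ p ∈ S, φ p = z := by
  have h1 : IsCompact (φ '' S) :=
    (hL.isCompact.of_isClosed_subset hSc hS).image_of_continuousOn (hφ.continuousOn.mono hS)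
  have h2 : closure T ⊆ φ '' S := closure_minimal (fun z hz => hT z hz) h1.isClosed
  exact fun z hz => h2 hz

omit [IsTopologicalAddGroup F] [ContinuousSMul ℝ F] [LocallyConvexSpace ℝ F] in
theorem bar_lift (hL : IsAffineFlow G L α) (hφ : IsAffineExtension L α K β φ) {z : F}
    (hz : z ∈ extClosure K) : ∃ p ∈ extClosure L, φ p = z := by
  refine closed_image_ext hL hφ (ext_subset hL) isClosed_closure ?_ z hz
  intro z hz
  obtain ⟨p, hp, hpz⟩ := ext_lift hL hφ hz
  exact ⟨p, subset_closure hp, hpz⟩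

/-- irreducible extensions map the closure of the extreme points into the closure of the extreme
points -/
theorem bar_maps (hL : IsAffineFlow G L α) (hK : IsAffineFlow G K β)
    (hφ : IsAffineExtension L α K β φ) (hirr : ProximallyIrreducible L α K φ) {p : E}
    (hp : p ∈ extClosure L) : φ p ∈ extClosure K := by
  have hcl : IsClosed (extClosure L ∩ φ ⁻¹' (extClosure K)) :=
    (hφ.continuousOn.mono (ext_subset hL)).preimage_isClosed_of_isClosed isClosed_closure
      isClosed_closure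
  have h1 : L.extremePoints ℝ ⊆ extClosure L ∩ φ ⁻¹' (extClosure K) := by
    refine irr_ext hL hirr (inter_subset_left.trans (ext_subset hL)) hcl ?_ ?_
    · rintro g x ⟨hx1, hx2⟩
      refine ⟨extc_inv hL g hx1, ?_⟩
      show φ (α g x) ∈ extClosure K
      rw [hφ.equivariant g x (ext_subset hL hx1)]
      exact extc_inv hK g hx2
    · intro y hy
      obtain ⟨q, hq, hqy⟩ := bar_lift hL hφ hy
      refine ⟨q, subset_closure (subset_convexHull ℝ _ ⟨hq, ?_⟩), subset_convexHull ℝ _ ⟨hq, hqy⟩⟩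
      show φ q ∈ extClosure K
      rw [hqy]
      exact hy
  exact (closure_minimal h1 hcl hp).2

theorem cN_mono_set {A B : Set E} (h : A ⊆ B) (n : ℕ) : cN A n ⊆ cN B n := by
  induction n with
  | zero => exact h
  | succ n ih =>
    rintro m ⟨p, hp, q, hq, a, b, ha, hb, hab, rfl⟩
    exact ⟨p, h hp, q, ih hq, a, b, ha, hb, hab, rfl⟩

theorem cN_sub {A L : Set E} (hL : Convex ℝ L) (h : A ⊆ L) (n : ℕ) : cN A n ⊆ L :=
  (cN_subset_hull A n).trans (convexHull_min h hL)

/-- affine maps and `cN` -/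
theorem cN_map {L : Set E} (hL : Convex ℝ L) {f : E → F}
    (hf : ∀ x ∈ L, ∀ y ∈ L, ∀ a b : ℝ, 0 ≤ a → 0 ≤ b → a + b = 1 →
      f (a • x + b • y) = a • f x + b • f y) {A : Set E} (hA : A ⊆ L) {B : Set F}
    (hAB : ∀ x ∈ A, f x ∈ B) (n : ℕ) {m : E} (hm : m ∈ cN A n) : f m ∈ cN B n := by
  induction n generalizing m with
  | zero => exact hAB m hm
  | succ n ih =>
    obtain ⟨p, hp, q, hq, a, b, ha, hb, hab, rfl⟩ := hm
    rw [hf p (hA hp) q (cN_sub hL hA n hq) a b ha hb hab]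
    exact ⟨f p, hAB p hp, f q, ih hq, a, b, ha, hb, hab, rfl⟩

theorem cN_ext {L : Set E} (hL : Convex ℝ L) {K : Set F} {f : E → F}
    (hf : ∀ x ∈ L, ∀ y ∈ L, ∀ a b : ℝ, 0 ≤ a → 0 ≤ b → a + b = 1 →
      f (a • x + b • y) = a • f x + b • f y) (hfK : ∀ x ∈ L, f x ∈ K) {A : Set E} (hA : A ⊆ L)
    {z : F} (hz : z ∈ K.extremePoints ℝ) (n : ℕ) {m : E} (hm : m ∈ cN A n) (hmz : f m = z) :
    m ∈ cN (A ∩ f ⁻¹' {z}) n := by
  induction n generalizing m with
  | zero => exact ⟨hm, hmz⟩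
  | succ n ih =>
    obtain ⟨p, hp, q, hq, a, b, ha, hb, hab, rfl⟩ := hm
    have hpL := hA hp
    have hqL := cN_sub hL hA n hq
    rcases ha.eq_or_lt with ha0 | ha0
    · have hb1 : b = 1 := by linarith
      have e : a • p + b • q = q := by rw [← ha0, hb1]; simp
      rw [e] at hmz ⊢
      exact cN_succ _ n (ih hq hmz)
    rcases hb.eq_or_lt with hb0 | hb0
    · have ha1 : a = 1 := by linarith
      have e : a • p + b • q = p := by rw [← hb0, ha1]; simp
      rw [e] at hmz ⊢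
      exact subset_cN _ _ ⟨hp, hmz⟩
    rw [hf p hpL q hqL a b ha hb hab] at hmz
    rw [mem_extremePoints] at hz
    obtain ⟨h1, h2⟩ := hz.2 _ (hfK p hpL) _ (hfK q hqL) ⟨a, b, ha0, hb0, hab, hmz⟩
    exact ⟨p, ⟨hp, h1⟩, q, ih hq h2, a, b, ha, hb, hab, rfl⟩

theorem baire {X : Set F} (hX : IsCompact X) (Fn : ℕ → Set F) (hF : ∀ n, IsClosed (Fn n))
    (hcov : ∀ x ∈ X, ∃ n, x ∈ Fn n) :
    X ⊆ closure (⋃ n, (⋃₀ {O | IsOpen O ∧ O ∩ X ⊆ Fn n}) ∩ X) := by
  have hcomp : CompactSpace X := isCompact_iff_compactSpace.mp hX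
  have h := dense_iUnion_interior_of_closed (f := fun n => (Subtype.val : X → F) ⁻¹' (Fn n))
    (fun n => (hF n).preimage continuous_subtype_val) (by
      apply eq_univ_of_forall
      rintro ⟨x, hx⟩
      obtain ⟨n, hn⟩ := hcov x hx
      exact mem_iUnion.mpr ⟨n, hn⟩)
  intro x hx
  have h1 := h ⟨x, hx⟩
  have h2 := image_closure_subset_closure_image continuous_subtype_val (mem_image_of_mem _ h1)
  refine closure_mono ?_ h2
  rintro _ ⟨y, hy, rfl⟩
  obtain ⟨n, hn⟩ := mem_iUnion.mp hy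
  rw [mem_interior] at hn
  obtain ⟨U, hU1, hU2, hU3⟩ := hn
  obtain ⟨O, hO, rfl⟩ := isOpen_induced_iff.mp hU2
  refine mem_iUnion.mpr ⟨n, ⟨O, ⟨hO, ?_⟩, hU3⟩, y.2⟩
  rintro w ⟨hw1, hw2⟩
  exact hU1 (show (⟨w, hw2⟩ : X) ∈ _ from hw1)

theorem dense_near {L : Set E} {f : E → F} (hf : ContinuousOn f L) {A : Set E} (hA : A ⊆ L)
    (hL : IsClosed L) {O : Set F} (hO : IsOpen O) {z : E} (hz : z ∈ closure A) (hzO : f z ∈ O) :
    z ∈ closure (A ∩ f ⁻¹' O) := by
  have hzL : z ∈ L := closure_minimal hA hL hz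
  have h1 : f ⁻¹' O ∈ 𝓝[L] z := (hf z hzL).preimage_mem_nhdsWithin (hO.mem_nhds hzO)
  have h2 : f ⁻¹' O ∈ 𝓝[A] z := nhdsWithin_mono z hA h1
  rw [mem_closure_iff_nhdsWithin_neBot] at hz ⊢
  rw [inter_comm, nhdsWithin_inter_of_mem h2]
  exact hz

theorem closed_rel {X C : Set E} (hX : IsCompact X) (hC : IsClosed C) {π : E → F}
    (hπ : ContinuousOn π X) (n : ℕ) : IsClosed {y | ∃ m ∈ C, m ∈ cN (X ∩ π ⁻¹' {y}) n} := by
  have h1 := ((isCompact_rel hX hπ n).inter_right
    (isClosed_univ (X := F) |>.prod hC)).image continuous_fst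
  convert! h1.isClosed using 1
  ext y
  constructor
  · rintro ⟨m, hm, hm2⟩
    exact ⟨(y, m), ⟨hm2, mem_univ _, hm⟩, rfl⟩
  · rintro ⟨⟨y', m⟩, ⟨h1, -, h2⟩, rfl⟩
    exact ⟨m, h2, h1⟩

theorem compact_rel {X C : Set E} (hX : IsCompact X) (hC : IsClosed C) {π : E → F}
    (hπ : ContinuousOn π X) (n : ℕ) : IsCompact {m | m ∈ C ∧ ∃ y, m ∈ cN (X ∩ π ⁻¹' {y}) n} := by
  have h1 := ((isCompact_rel hX hπ n).inter_right
    (isClosed_univ (X := F) |>.prod hC)).image continuous_snd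
  convert! h1 using 1
  ext m
  constructor
  · rintro ⟨hm, y, hm2⟩
    exact ⟨(y, m), ⟨hm2, mem_univ _, hm⟩, rfl⟩
  · rintro ⟨⟨y, m'⟩, ⟨h1, -, h2⟩, rfl⟩
    exact ⟨h2, y, h1⟩

end extension

/-- **Compositions of proximally irreducible affine extensions are proximally irreducible**, for
every topological group `G` (in particular for every Polish group). -/
theorem result {G : Type*} [Group G] [TopologicalSpace G]
    {E₁ : Type*} [AddCommGroup E₁] [Module ℝ E₁] [TopologicalSpace E₁] [IsTopologicalAddGroup E₁]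
    [ContinuousSMul ℝ E₁] [LocallyConvexSpace ℝ E₁] [T2Space E₁]
    {E₂ : Type*} [AddCommGroup E₂] [Module ℝ E₂] [TopologicalSpace E₂] [IsTopologicalAddGroup E₂]
    [ContinuousSMul ℝ E₂] [LocallyConvexSpace ℝ E₂] [T2Space E₂]
    {E₃ : Type*} [AddCommGroup E₃] [Module ℝ E₃] [TopologicalSpace E₃] [IsTopologicalAddGroup E₃]
    [ContinuousSMul ℝ E₃] [LocallyConvexSpace ℝ E₃] [T2Space E₃]
    {K : Set E₁} {αK : G → E₁ → E₁} {L : Set E₂} {αL : G → E₂ → E₂} {P : Set E₃}
    {αP : G → E₃ → E₃} (hK : IsAffineFlow G K αK) (hL : IsAffineFlow G L αL)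
    (hP : IsAffineFlow G P αP) {φ : E₂ → E₁} {ψ : E₃ → E₂}
    (hφ : IsAffineExtension L αL K αK φ) (hψ : IsAffineExtension P αP L αL ψ)
    (hφi : ProximallyIrreducible L αL K φ) (hψi : ProximallyIrreducible P αP L ψ) :
    IsAffineExtension P αP K αK (φ ∘ ψ) ∧ ProximallyIrreducible P αP K (φ ∘ ψ) := by
  have hψP : ∀ x ∈ P, ψ x ∈ L := fun x hx => by rw [← hψ.image_eq]; exact mem_image_of_mem _ hx
  have hφL : ∀ x ∈ L, φ x ∈ K := fun x hx => by rw [← hφ.image_eq]; exact mem_image_of_mem _ hx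
  have hπ : IsAffineExtension P αP K αK (φ ∘ ψ) := by
    refine ⟨hφ.continuousOn.comp hψ.continuousOn hψP, ?_, ?_, ?_⟩
    · rw [image_comp, hψ.image_eq, hφ.image_eq]
    · intro x hx y hy a b ha hb hab
      show φ (ψ _) = _
      rw [hψ.affine x hx y hy a b ha hb hab,
        hφ.affine _ (hψP x hx) _ (hψP y hy) a b ha hb hab]
      rfl
    · intro g x hx
      show φ (ψ _) = _
      rw [hψ.equivariant g x hx, hφ.equivariant g _ (hψP x hx)]
      rfl
  refine ⟨hπ, ?_⟩
  intro C hC hmeet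
  have hCc : IsClosed C := hC.isCompact.isClosed
  have hXPP := ext_subset hP
  have hXLL := ext_subset hL
  have hXKK := ext_subset hK
  have hXP := isCompact_ext hP
  -- the maps preserve the closures of the extreme points
  have m1 : ∀ p ∈ extClosure P, ψ p ∈ extClosure L := fun p hp => bar_maps hP hL hψ hψi hp
  have m2 : ∀ p ∈ extClosure L, φ p ∈ extClosure K := fun p hp => bar_maps hL hK hφ hφi hp
  have cψ : ContinuousOn ψ (extClosure P) := hψ.continuousOn.mono hXPP
  have cπ : ContinuousOn (φ ∘ ψ) (extClosure P) := hπ.continuousOn.mono hXPP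
  obtain ⟨Fn, hFn⟩ : ∃ Fn : ℕ → Set E₁,
      ∀ n, Fn n = {y | ∃ m ∈ C, m ∈ cN (extClosure P ∩ (φ ∘ ψ) ⁻¹' {y}) n} :=
    ⟨_, fun n => rfl⟩
  obtain ⟨O, hO⟩ : ∃ O : ℕ → Set E₁, ∀ n, O n = ⋃₀ {U | IsOpen U ∧ U ∩ extClosure K ⊆ Fn n} :=
    ⟨_, fun n => rfl⟩
  have hOo : ∀ n, IsOpen (O n) := by
    intro n
    rw [hO]
    exact isOpen_sUnion fun U hU => hU.1
  have hOF : ∀ n, ∀ y ∈ O n, y ∈ extClosure K → y ∈ Fn n := by
    intro n y hy hyK
    rw [hO] at hy
    obtain ⟨U, ⟨-, hU⟩, hyU⟩ := hy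
    exact hU ⟨hyU, hyK⟩
  -- invariance of Fn and O
  have hact : ∀ (g : G) (n : ℕ) (y : E₁) (m : E₃),
      m ∈ cN (extClosure P ∩ (φ ∘ ψ) ⁻¹' {y}) n →
      αP g m ∈ cN (extClosure P ∩ (φ ∘ ψ) ⁻¹' {αK g y}) n := by
    intro g n y m hm
    refine cN_map hP.convex (hP.affine g) (inter_subset_left.trans hXPP) ?_ n hm
    rintro x ⟨hx1, hx2⟩
    refine ⟨extc_inv hP g hx1, ?_⟩
    have hx2' : (φ ∘ ψ) x = y := hx2
    show (φ ∘ ψ) (αP g x) = αK g y
    rw [hπ.equivariant g x (hXPP hx1), hx2']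
  have hFinv : ∀ (g : G) (n : ℕ), ∀ y ∈ Fn n, αK g y ∈ Fn n := by
    intro g n y hy
    rw [hFn] at hy ⊢
    obtain ⟨m, hm1, hm2⟩ := hy
    exact ⟨αP g m, hC.maps g m hm1, hact g n y m hm2⟩
  have hOinv : ∀ (g : G) (n : ℕ), ∀ y ∈ O n, y ∈ extClosure K → αK g y ∈ O n := by
    intro g n y hy hyK
    rw [hO] at hy ⊢
    obtain ⟨U, ⟨hU1, hU2⟩, hyU⟩ := hy
    obtain ⟨U', hU'1, hU'2⟩ := (continuousOn_iff'.mp ((cont hK g⁻¹).mono hXKK)) U hU1
    refine ⟨U', ⟨hU'1, ?_⟩, ?_⟩
    · rintro w ⟨hw1, hw2⟩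
      have hw3 : w ∈ αK g⁻¹ ⁻¹' U ∩ extClosure K := by rw [hU'2]; exact ⟨hw1, hw2⟩
      have h1 : αK g⁻¹ w ∈ Fn n := hU2 ⟨hw3.1, extc_inv hK g⁻¹ hw2⟩
      have h2 := hFinv g n _ h1
      rwa [act_inv hK g (hXKK hw2)] at h2
    · have h1 : αK g y ∈ αK g⁻¹ ⁻¹' U ∩ extClosure K := by
        refine ⟨?_, extc_inv hK g hyK⟩
        show αK g⁻¹ (αK g y) ∈ U
        rw [inv_act hK g (hXKK hyK)]
        exact hyU
      rw [hU'2] at h1
      exact h1.1
  -- Baire
  have hbaire : extClosure K ⊆ closure (⋃ n, O n ∩ extClosure K) := by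
    have := baire (isCompact_ext hK) Fn (fun n => by
      rw [hFn]; exact closed_rel hXP hCc cπ n) (by
      intro y hy
      obtain ⟨m, hm1, hm2⟩ := hmeet y hy
      obtain ⟨n, hn⟩ := (mem_hull_iff _ _).mp hm2
      refine ⟨n, ?_⟩
      rw [hFn]
      exact ⟨m, hm1, hn⟩)
    simpa only [hO] using this
  -- Claim 1
  have claim1 : ∀ n, ∀ z ∈ L.extremePoints ℝ, φ z ∈ O n →
      z ∈ {z | ∃ m ∈ C, m ∈ cN (extClosure P ∩ ψ ⁻¹' {z}) n} := by
    intro n z hz hzO
    have hcR : IsClosed (extClosure L ∩ φ ⁻¹' (O n)ᶜ) :=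
      (hφ.continuousOn.mono hXLL).preimage_isClosed_of_isClosed isClosed_closure
        (hOo n).isClosed_compl
    obtain ⟨M, hM⟩ : ∃ M, M = {m | m ∈ C ∧ ∃ y, m ∈ cN (extClosure P ∩ (φ ∘ ψ) ⁻¹' {y}) n} :=
      ⟨_, rfl⟩
    have hMP : M ⊆ P := by
      rw [hM]
      exact fun m hm => hC.subset hm.1
    have hMc : IsClosed (ψ '' M) := by
      have : IsCompact M := by rw [hM]; exact compact_rel hXP hCc cπ n
      exact (this.image_of_continuousOn (hψ.continuousOn.mono hMP)).isClosed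
    have h1 : L.extremePoints ℝ ⊆ ψ '' M ∪ (extClosure L ∩ φ ⁻¹' (O n)ᶜ) := by
      refine irr_ext hL hφi ?_ (hMc.union hcR) ?_ ?_
      · apply union_subset
        · rintro _ ⟨m, hm, rfl⟩
          exact hψP m (hMP hm)
        · exact inter_subset_left.trans hXLL
      · rintro g _ (⟨m, hm, rfl⟩ | ⟨hb1, hb2⟩)
        · left
          refine ⟨αP g m, ?_, hψ.equivariant g m (hMP hm)⟩
          rw [hM] at hm ⊢
          obtain ⟨hm1, y, hm2⟩ := hm
          exact ⟨hC.maps g m hm1, _, hact g n y m hm2⟩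
        · right
          refine ⟨extc_inv hL g hb1, ?_⟩
          intro hcon
          apply hb2
          rename_i b
          have h2 : φ (αL g b) ∈ O n := hcon
          rw [hφ.equivariant g b (hXLL hb1)] at h2
          have h3 := hOinv g⁻¹ n _ h2 (extc_inv hK g (m2 b hb1))
          rwa [inv_act hK g (hXKK (m2 b hb1))] at h3
      · intro y hy
        by_cases hyO : y ∈ O n
        · have h2 := hOF n y hyO hy
          rw [hFn] at h2
          obtain ⟨m, hm1, hm2⟩ := h2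
          refine ⟨ψ m, subset_closure (subset_convexHull ℝ _ (Or.inl ⟨m, ?_, rfl⟩)), ?_⟩
          · rw [hM]
            exact ⟨hm1, y, hm2⟩
          · apply cN_subset_hull _ n
            refine cN_map hP.convex hψ.affine (inter_subset_left.trans hXPP) ?_ n hm2
            rintro x ⟨hx1, hx2⟩
            exact ⟨m1 x hx1, hx2⟩
        · obtain ⟨b, hb, hby⟩ := bar_lift hL hφ hy
          refine ⟨b, subset_closure (subset_convexHull ℝ _ (Or.inr ⟨hb, ?_⟩)),
            subset_convexHull ℝ _ ⟨hb, hby⟩⟩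
          show φ b ∉ O n
          rw [hby]
          exact hyO
    rcases h1 hz with ⟨m, hm, hmz⟩ | ⟨-, h2⟩
    · rw [hM] at hm
      obtain ⟨hm1, y, hm2⟩ := hm
      refine ⟨m, hm1, ?_⟩
      have h3 := cN_ext hP.convex hψ.affine hψP (inter_subset_left.trans hXPP) hz n hm2 hmz
      refine cN_mono_set ?_ n h3
      rintro x ⟨⟨hx1, -⟩, hx2⟩
      exact ⟨hx1, hx2⟩
    · exact absurd hzO h2
  -- Claim 2
  have claim2 : ∀ n, ∀ z ∈ extClosure L, φ z ∈ O n →
      z ∈ {z | ∃ m ∈ C, m ∈ cN (extClosure P ∩ ψ ⁻¹' {z}) n} := by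
    intro n z hz hzO
    have h1 := dense_near hφ.continuousOn extremePoints_subset hL.isCompact.isClosed (hOo n) hz hzO
    exact closure_minimal (fun w hw => claim1 n w hw.1 hw.2) (closed_rel hXP hCc cψ n) h1
  -- Claim 3
  have claim3 : ∀ n, ∀ p ∈ P.extremePoints ℝ, φ (ψ p) ∈ O n → p ∈ C := by
    intro n p hp hpO
    have hcR : IsClosed (extClosure P ∩ (φ ∘ ψ) ⁻¹' (O n)ᶜ) :=
      cπ.preimage_isClosed_of_isClosed isClosed_closure (hOo n).isClosed_compl
    have h1 : P.extremePoints ℝ ⊆ C ∪ (extClosure P ∩ (φ ∘ ψ) ⁻¹' (O n)ᶜ) := by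
      refine irr_ext hP hψi (union_subset hC.subset (inter_subset_left.trans hXPP))
        (hCc.union hcR) ?_ ?_
      · rintro g b (hb | ⟨hb1, hb2⟩)
        · exact Or.inl (hC.maps g b hb)
        · right
          refine ⟨extc_inv hP g hb1, ?_⟩
          intro hcon
          apply hb2
          have h2 : (φ ∘ ψ) (αP g b) ∈ O n := hcon
          rw [hπ.equivariant g b (hXPP hb1)] at h2
          have hbK : (φ ∘ ψ) b ∈ extClosure K := m2 _ (m1 b hb1)
          have h3 := hOinv g⁻¹ n _ h2 (extc_inv hK g hbK)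
          rwa [inv_act hK g (hXKK hbK)] at h3
      · intro z hz
        by_cases hzO : φ z ∈ O n
        · obtain ⟨m, hm1, hm2⟩ := claim2 n z hz hzO
          exact ⟨m, subset_closure (subset_convexHull ℝ _ (Or.inl hm1)),
            cN_subset_hull _ n hm2⟩
        · obtain ⟨q, hq, hqz⟩ := bar_lift hP hψ hz
          refine ⟨q, subset_closure (subset_convexHull ℝ _ (Or.inr ⟨hq, ?_⟩)),
            subset_convexHull ℝ _ ⟨hq, hqz⟩⟩
          show φ (ψ q) ∉ O n
          rw [hqz]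
          exact hzO
    rcases h1 hp with h2 | ⟨-, h2⟩
    · exact h2
    · exact absurd hpO h2
  -- Claim 4
  obtain ⟨M, hM⟩ : ∃ M : Set E₂, M = closure {z | z ∈ L.extremePoints ℝ ∧ ∃ n, φ z ∈ O n} :=
    ⟨_, rfl⟩
  have hMX : M ⊆ extClosure L := by
    rw [hM]
    exact closure_mono fun z hz => hz.1
  have hMc : IsClosed M := by rw [hM]; exact isClosed_closure
  have hLM : extClosure L ⊆ M := by
    apply closure_minimal _ hMc
    refine irr_ext hL hφi (hMX.trans hXLL) hMc ?_ ?_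
    · intro g x hx
      rw [hM] at hx ⊢
      refine closure_inv hL (fun z hz => extremePoints_subset hz.1) ?_ g hx
      rintro g z ⟨hz1, n, hz2⟩
      refine ⟨ext_inv hL g hz1, n, ?_⟩
      rw [hφ.equivariant g z (extremePoints_subset hz1)]
      exact hOinv g n _ hz2 (m2 z (subset_closure hz1))
    · intro y hy
      obtain ⟨z, hz1, hz2⟩ := closed_image_ext hL hφ (hMX.trans hXLL) hMc
        (T := ⋃ n, O n ∩ extClosure K) (by
          intro y hy
          obtain ⟨n, hn1, hn2⟩ := mem_iUnion.mp hy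
          obtain ⟨z, hz1, hz2⟩ := bar_lift hL hφ hn2
          refine ⟨z, ?_, hz2⟩
          have h1 := dense_near hφ.continuousOn extremePoints_subset hL.isCompact.isClosed (hOo n)
            hz1 (by rw [hz2]; exact hn1)
          rw [hM]
          have h2 : L.extremePoints ℝ ∩ φ ⁻¹' (O n) ⊆
              {z | z ∈ L.extremePoints ℝ ∧ ∃ n, φ z ∈ O n} := by
            rintro w ⟨hw1, hw2⟩
            exact ⟨hw1, n, hw2⟩
          exact closure_mono h2 h1) y (hbaire hy)
      have hzy : z ∈ extClosure L ∩ φ ⁻¹' {y} := ⟨hMX hz1, hz2⟩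
      exact ⟨z, subset_closure (subset_convexHull ℝ _ hz1), subset_convexHull ℝ _ hzy⟩
  obtain ⟨S, hS⟩ : ∃ S : Set E₃, S = closure {p | p ∈ P.extremePoints ℝ ∧ ∃ n, φ (ψ p) ∈ O n} :=
    ⟨_, rfl⟩
  have hSX : S ⊆ extClosure P := by
    rw [hS]
    exact closure_mono fun z hz => hz.1
  have hSc : IsClosed S := by rw [hS]; exact isClosed_closure
  have hSC : S ⊆ C := by
    rw [hS]
    apply closure_minimal _ hCc
    rintro p ⟨hp, n, hn⟩
    exact claim3 n p hp hn
  have hPS : P.extremePoints ℝ ⊆ S := by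
    refine irr_ext hP hψi (hSX.trans hXPP) hSc ?_ ?_
    · intro g x hx
      rw [hS] at hx ⊢
      refine closure_inv hP (fun z hz => extremePoints_subset hz.1) ?_ g hx
      rintro g z ⟨hz1, n, hz2⟩
      refine ⟨ext_inv hP g hz1, n, ?_⟩
      have h1 := hπ.equivariant g z (extremePoints_subset hz1)
      have h2 : φ (ψ (αP g z)) = αK g (φ (ψ z)) := h1
      rw [h2]
      exact hOinv g n _ hz2 (m2 _ (m1 z (subset_closure hz1)))
    · intro z hz
      have hzM := hLM hz
      rw [hM] at hzM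
      obtain ⟨p, hp1, hp2⟩ := closed_image_ext hP hψ (hSX.trans hXPP) hSc (by
          rintro w ⟨hw1, n, hw2⟩
          obtain ⟨p, hp1, hp2⟩ := ext_lift hP hψ hw1
          refine ⟨p, ?_, hp2⟩
          rw [hS]
          exact subset_closure ⟨hp1, n, by rw [hp2]; exact hw2⟩) z hzM
      have hpz : p ∈ extClosure P ∩ ψ ⁻¹' {z} := ⟨hSX hp1, hp2⟩
      exact ⟨p, subset_closure (subset_convexHull ℝ _ hp1), subset_convexHull ℝ _ hpz⟩
  apply Subset.antisymm hC.subset
  rw [← closure_convexHull_extremePoints hP.isCompact hP.convex]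
  exact closure_minimal (convexHull_min (hPS.trans hSC) hC.convex) hCc

end Pool.Agent.Results.MP_d4114f_an.Composition
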